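import Pool.Agent.TH54.BU.Iter
import Pool.Agent.Helper86K9.Bg.Abel
import Pool.Agent.Helper86K9.Bg.Cat

/-!
# A group with a good, totally categorical diagram all of whose abelian subgroups are finite

The group is the free group of exponent `p` (a large prime) on a countably infinite set, with a
unary predicate for the set of the free generators. A `D`-model is the free group of exponent `p` on
its predicate, which is infinite; these models are homogeneous. The abelian subgroups of free groups
of large prime exponent `p` have at most `p` elements.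
-/

set_option autoImplicit false

namespace Pool.Agent.Results.MP_23d001_lc.NoInfiniteAbelian

open FirstOrder FirstOrder.Language Cardinal Structure Pool.Agent.Helper86K9.Bg

theorem finite_symbols : Finite LG.Symbols := by
  refine Finite.of_surjective (fun i : Fin 4 => (![Sum.inl ⟨2, fmul⟩, Sum.inl ⟨1, finv⟩,
    Sum.inl ⟨0, fone⟩, Sum.inr ⟨1, rbas⟩] : Fin 4 → LG.Symbols) i) ?_
  rintro (⟨n, f⟩ | ⟨n, r⟩)
  · cases f
    · exact ⟨0, rfl⟩
    · exact ⟨1, rfl⟩
    · exact ⟨2, rfl⟩
  · cases r
    exact ⟨3, rfl⟩

/-- For every sufficiently large prime `p` there are a first-order language `L` with finitely many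
symbols, containing the language of groups, and an infinite group `G` of exponent `p` which is an
`L`-structure, such that the diagram of `G` is good and categorical in every infinite cardinal (and
has models of all infinite cardinalities), and every abelian subgroup of `G` is finite, with at most
`p` elements. -/
theorem result : ∃ p₀ : ℕ, ∀ p : ℕ, p.Prime → p₀ ≤ p →
    ∃ (L : FirstOrder.Language.{0, 0}) (mul : L.Functions 2) (inv : L.Functions 1)
      (one : L.Functions 0) (G : Type) (_ : Group G) (_ : L.Structure G),
      Finite L.Symbols ∧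
      (∀ a b : G, funMap mul ![a, b] = a * b) ∧
      (∀ a : G, funMap inv ![a] = a⁻¹) ∧
      (funMap one ![] = (1 : G)) ∧
      Infinite G ∧
      (∀ g : G, g ^ p = 1) ∧
      Good (diagram L G) ∧
      (∀ κ : Cardinal.{0}, ℵ₀ ≤ κ → CategoricalIn (diagram L G) κ ∧
        ∃ (M : Type) (_ : L.Structure M), IsDModel (diagram L G) M ∧ #M = κ) ∧
      ∀ A : Subgroup G, (∀ x ∈ A, ∀ y ∈ A, x * y = y * x) → Finite A ∧ Nat.card A ≤ p := by
  obtain ⟨p₀, h⟩ := Pool.Agent.TH54.BU.burnside
  refine ⟨p₀, fun p hp hpp => ?_⟩
  have h2 : 2 ≤ p := hp.two_le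
  refine ⟨LG, fmul, finv, fone, BG p ℕ, inferInstance, inferInstance, finite_symbols,
    fun _ _ => rfl, fun _ => rfl, rfl, Infinite.of_injective _ (io_injective h2), pow_eq,
    good h2, fun κ hκ => ⟨categorical h2 κ, exists_dmodel h2 hκ⟩, abelian_card hp (h p hp hpp) ℕ⟩

end Pool.Agent.Results.MP_23d001_lc.NoInfiniteAbelian
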